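import Pool.Agent.H37.CND.Stmts

set_option autoImplicit false

namespace Pool.CND

open Finset

namespace EGA

variable {k : Type} [Field k] {p h : ℕ}

theorem card_roots [IsAlgClosed k] [Fact p.Prime] [CharP k p] (j : ℕ) (hj : 1 ≤ j) (a b : k)
    (hb : b ≠ 0) : Nat.card {x : k // x ^ (p ^ j) + b * x + a = 0} = p ^ j := by
  classical
  have hp := (Fact.out : p.Prime)
  have hn2 : 2 ≤ p ^ j := le_trans hp.two_le (Nat.le_self_pow (by omega) p)
  set n : ℕ := p ^ j with hn
  have hnk : (n : k) = 0 := by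
    rw [hn, Nat.cast_pow, CharP.cast_eq_zero k p, zero_pow (by omega)]
  set P : Polynomial k := Polynomial.X ^ n + (Polynomial.C b * Polynomial.X + Polynomial.C a) with hP
  have hdeg1 : (Polynomial.C b * Polynomial.X + Polynomial.C a).degree < (n : WithBot ℕ) := by
    refine lt_of_le_of_lt Polynomial.degree_linear_le ?_
    exact_mod_cast hn2
  have hnd : P.natDegree = n := by
    have : P.degree = n := by
      rw [hP, Polynomial.degree_add_eq_left_of_degree_lt]
      · exact Polynomial.degree_X_pow n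
      · rw [Polynomial.degree_X_pow]; exact hdeg1
    exact Polynomial.natDegree_eq_of_degree_eq_some this
  have hP0 : P ≠ 0 := by
    intro h0
    rw [h0, Polynomial.natDegree_zero] at hnd
    omega
  have hder : Polynomial.derivative P = Polynomial.C b := by
    rw [hP, Polynomial.derivative_add, Polynomial.derivative_X_pow, hnk, Polynomial.C_0, zero_mul,
      zero_add]
    simp
  have hsep : P.Separable := by
    rw [Polynomial.separable_def, hder]
    exact ⟨0, Polynomial.C b⁻¹, by rw [zero_mul, zero_add, ← Polynomial.C_mul,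
      inv_mul_cancel₀ hb, Polynomial.C_1]⟩
  have hc : Multiset.card P.roots = n := by
    rw [← hnd]
    exact (Polynomial.splits_iff_card_roots.1 (IsAlgClosed.splits P))
  have hnod := Polynomial.nodup_roots hsep
  have h1 : P.roots.toFinset.card = n := by
    rw [Multiset.toFinset_card_of_nodup hnod, hc]
  have h2 : Nat.card {x : k // x ∈ P.roots.toFinset} = n := by
    rw [Nat.card_eq_fintype_card, Fintype.card_coe, h1]
  refine Eq.trans ?_ h2
  apply Nat.card_congr
  apply Equiv.subtypeEquivRight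
  intro x
  rw [Multiset.mem_toFinset, Polynomial.mem_roots hP0, Polynomial.IsRoot.def]
  simp only [hP, Polynomial.eval_add, Polynomial.eval_pow, Polynomial.eval_X, Polynomial.eval_mul,
    Polynomial.eval_C]
  rw [add_assoc]

variable [Fact p.Prime] [CharP k p]

theorem pow_w (g : EG k p h) (n : ℕ) : (g ^ n).w = n * g.w := by
  induction n with
  | zero => rw [pow_zero, EG.one_w]; simp
  | succ n ih => rw [pow_succ, EG.mul_w, ih]; push_cast; ring

theorem Bf_nat_mul (w x : k) (n : ℕ) : Bf p h w (n * x) = n * Bf p h w x := by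
  induction n with
  | zero => simp [Bf_zero_right]
  | succ n ih =>
    have : ((n + 1 : ℕ) : k) * x = n * x + x := by push_cast; ring
    rw [this, Bf_add_right, ih]
    push_cast
    ring

theorem pow_β (g : EG k p h) (n : ℕ) :
    (g ^ n).β = n * g.β + (n.choose 2 : ℕ) * Bf p h g.w g.w := by
  induction n with
  | zero => rw [pow_zero, EG.one_β]; simp
  | succ n ih =>
    rw [pow_succ, EG.mul_β, ih, pow_w, Bf_nat_mul]
    have : (n + 1).choose 2 = n.choose 1 + n.choose 2 := rfl
    rw [this, Nat.choose_one_right]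
    push_cast
    ring

/-- the subgroup of the pairs with `w = ζ c`, `c ^ q = c` -/
def AF (ζ : k) : Subgroup (EG k p h) where
  carrier := {g | ∃ c : k, c ^ (p ^ h) = c ∧ g.w = ζ * c}
  one_mem' := ⟨0, zero_pow (pow_ne_zero _ (Fact.out : p.Prime).ne_zero), by
    rw [EG.one_w, mul_zero]⟩
  mul_mem' := by
    rintro a b ⟨c, hc, hc'⟩ ⟨d, hd, hd'⟩
    refine ⟨c + d, ?_, ?_⟩
    · rw [add_pow_char_pow, hc, hd]
    · rw [EG.mul_w, hc', hd', mul_add]
  inv_mem' := by
    rintro a ⟨c, hc, hc'⟩
    refine ⟨-c, ?_, ?_⟩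
    · have := map_neg (iterateFrobenius k p h) c
      rw [iterateFrobenius_def, iterateFrobenius_def, hc] at this
      exact this
    · rw [EG.inv_w, hc', mul_neg]

omit [Fact p.Prime] [CharP k p] in
theorem Bf_symm (ζ c d : k) (hc : c ^ (p ^ h) = c) (hd : d ^ (p ^ h) = d) :
    Bf p h (ζ * c) (ζ * d) = Bf p h (ζ * d) (ζ * c) := by
  rw [Bf, Bf]
  congr 1
  refine sum_congr rfl fun i _ => ?_
  congr 1
  rw [mul_pow, mul_pow, hc, hd]
  ring

theorem AF_comm (ζ : k) (a b : EG k p h) (ha : a ∈ AF ζ) (hb : b ∈ AF ζ) : a * b = b * a := by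
  obtain ⟨c, hc, hc'⟩ := ha
  obtain ⟨d, hd, hd'⟩ := hb
  ext
  · rw [EG.mul_w, EG.mul_w, add_comm]
  · rw [EG.mul_β, EG.mul_β, hc', hd', Bf_symm ζ c d hc hd]
    ring

theorem AF_card [IsAlgClosed k] (hh : 1 ≤ h) (ζ : k) (h0 : ζ ≠ 0) (hζ : ζ ^ (p ^ (2 * h)) = -ζ) :
    Nat.card (AF (h := h) (p := p) ζ) = p ^ (h + 1) := by
  have hp := (Fact.out : p.Prime)
  set C := {c : k // c ^ (p ^ h) + (-1) * c + 0 = 0} with hC
  have hCc : Nat.card C = p ^ h := card_roots h hh 0 (-1) (by simp)
  have hB : ∀ c : C, Nat.card {x : k // x ^ (p ^ 1) + (-1) * x + -((ζ * c.1) ^ (p ^ h + 1)) = 0} = p :=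
    fun c => by
      rw [card_roots 1 le_rfl _ (-1) (by simp), pow_one]
  have hfin : Finite C := Nat.finite_of_card_ne_zero (by
    rw [hCc]; exact pow_ne_zero _ hp.ne_zero)
  have hfinB : ∀ c : C, Finite {x : k // x ^ (p ^ 1) + (-1) * x + -((ζ * c.1) ^ (p ^ h + 1)) = 0} :=
    fun c => Nat.finite_of_card_ne_zero (by rw [hB c]; exact hp.ne_zero)
  have := Fintype.ofFinite C
  have hS : Nat.card (Σ c : C, {x : k // x ^ (p ^ 1) + (-1) * x + -((ζ * c.1) ^ (p ^ h + 1)) = 0}) =
      p ^ (h + 1) := by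
    rw [Nat.card_sigma, Finset.sum_congr rfl (fun c _ => hB c), Finset.sum_const, Finset.card_univ,
      ← Nat.card_eq_fintype_card, hCc, smul_eq_mul, pow_succ]
  rw [← hS]
  symm
  have hc1 : ∀ c : C, c.1 ^ (p ^ h) = c.1 := fun c => by
    have := c.2
    linear_combination this
  have hc2 : ∀ c : C, c.1 ^ (p ^ (2 * h)) = c.1 := fun c => by
    rw [two_mul, pow_add, pow_mul, hc1, hc1]
  let f : (Σ c : C, {x : k // x ^ (p ^ 1) + (-1) * x + -((ζ * c.1) ^ (p ^ h + 1)) = 0}) →
      AF (h := h) (p := p) ζ := fun z =>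
    ⟨⟨(ζ * z.1.1, z.2.1), by
      refine ⟨?_, ?_⟩
      · show (ζ * z.1.1) ^ (p ^ (2 * h)) = -(ζ * z.1.1)
        rw [mul_pow, hζ, hc2]
        ring
      · show z.2.1 ^ p - z.2.1 = (ζ * z.1.1) ^ (p ^ h + 1)
        have := z.2.2
        have e : (z.2.1 : k) ^ p ^ 1 = (z.2.1 : k) ^ p := by simp
        linear_combination this - e⟩, ⟨z.1.1, hc1 z.1, rfl⟩⟩
  apply Nat.card_congr
  apply Equiv.ofBijective f
  constructor
  · rintro ⟨⟨c, hc⟩, ⟨x, hx⟩⟩ ⟨⟨d, hd⟩, ⟨y, hy⟩⟩ hfe
    have h1 : (ζ * c, x) = (ζ * d, y) := congrArg (fun g : AF (h := h) (p := p) ζ => g.1.1) hfe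
    rw [Prod.mk.injEq] at h1
    obtain ⟨h1, h2⟩ := h1
    have h3 : c = d := mul_left_cancel₀ h0 h1
    subst h3
    subst h2
    rfl
  · rintro ⟨g, ⟨c, hc, hc'⟩⟩
    refine ⟨⟨⟨c, by rw [hc]; ring⟩, ⟨g.β, ?_⟩⟩, ?_⟩
    · have := g.β_eq
      rw [hc'] at this
      rw [pow_one]
      linear_combination this
    · apply Subtype.ext
      apply EG.ext
      · exact hc'.symm
      · rfl

end EGA

open EGA in
theorem ega_thm (hEGC : S_EGC) : S_EGA := by
  intro p k _ _ _ _ h hh
  have hp := (Fact.out : p.Prime)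
  obtain ⟨hfin, hcard⟩ := hEGC p k h hh
  have hq : 2 ≤ p ^ (2 * h) := le_trans hp.two_le (Nat.le_self_pow (by omega) p)
  obtain ⟨ζ, hζ⟩ := IsAlgClosed.exists_pow_nat_eq (-1 : k) (n := p ^ (2 * h) - 1) (by omega)
  have h0 : ζ ≠ 0 := by
    rintro rfl
    rw [zero_pow (by omega)] at hζ
    exact one_ne_zero (neg_eq_zero.1 hζ.symm)
  have hζ' : ζ ^ (p ^ (2 * h)) = -ζ := by
    rw [← Nat.sub_add_cancel (show 1 ≤ p ^ (2 * h) by omega), pow_succ, hζ]
    ring
  have hAF := AF_card (h := h) (p := p) hh ζ h0 hζ'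
  by_cases hp2 : p = 2
  · -- `p = 2`
    let A2 : Subgroup (AF (h := h) (p := p) ζ) :=
      { carrier := {g | g ^ 2 = 1}
        one_mem' := one_pow 2
        mul_mem' := by
          intro a b ha hb
          have hab : a * b = b * a := Subtype.ext (AF_comm ζ a.1 b.1 a.2 b.2)
          show (a * b) ^ 2 = 1
          have ha' : a ^ 2 = 1 := ha
          have hb' : b ^ 2 = 1 := hb
          rw [(show Commute a b from hab).mul_pow, ha', hb', one_mul]
        inv_mem' := by
          intro a ha
          show (a⁻¹) ^ 2 = 1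
          have ha' : a ^ 2 = 1 := ha
          rw [inv_pow, ha', inv_one] }
    have hB2 : ∀ g : EG k p h, (g ^ 2).w = 0 ∧ ((g ^ 2).β = 0 ∨ (g ^ 2).β = 1) := by
      intro g
      have e2 : (2 : k) = 0 := by
        have := CharP.cast_eq_zero k p
        rw [hp2] at this
        exact_mod_cast this
      refine ⟨by rw [pow_w]; push_cast; rw [e2, zero_mul], ?_⟩
      have hb : (g ^ 2).β = Bf p h g.w g.w := by
        rw [pow_β]
        norm_num
        left
        exact e2
      rw [hb]
      have h3 := g.frob_w g.w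
      have h4 : g.w ^ p ^ h * g.w + g.w * g.w ^ p ^ h = 0 := by
        have : g.w ^ p ^ h * g.w + g.w * g.w ^ p ^ h = 2 * (g.w ^ p ^ h * g.w) := by ring
        rw [this, e2, zero_mul]
      rw [h4] at h3
      have e5 : Bf p h g.w g.w ^ p = Bf p h g.w g.w ^ 2 :=
        congrArg (fun n => Bf p h g.w g.w ^ n) hp2
      rw [e5] at h3
      have h5 : Bf p h g.w g.w * (Bf p h g.w g.w - 1) = 0 := by linear_combination h3
      rcases mul_eq_zero.1 h5 with h6 | h6
      · left; exact h6
      · right; exact sub_eq_zero.1 h6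
    have hdvd : p ^ h ∣ Nat.card A2 := by
      by_cases hall : ∀ g : AF (h := h) (p := p) ζ, g ^ 2 = 1
      · have : A2 = ⊤ := by
          rw [eq_top_iff]
          intro g _
          exact hall g
        rw [this, Subgroup.card_top, hAF, pow_succ]
        exact Dvd.intro _ rfl
      · push Not at hall
        obtain ⟨g0, hg0⟩ := hall
        have key : ∀ g : AF (h := h) (p := p) ζ, g ^ 2 ≠ 1 →
            (g ^ 2).1.w = 0 ∧ (g ^ 2).1.β = 1 := by
          intro g hg
          obtain ⟨h1, h2⟩ := hB2 g.1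
          have e : (g ^ 2).1 = g.1 ^ 2 := rfl
          rw [e]
          refine ⟨h1, ?_⟩
          rcases h2 with h2 | h2
          · exfalso
            apply hg
            apply Subtype.ext
            rw [e]
            apply EG.ext
            · rw [h1]; rfl
            · rw [h2]; rfl
          · exact h2
        have hidx : A2.index = 2 := by
          rw [Subgroup.index_eq_two_iff]
          refine ⟨g0, fun b => ?_⟩
          have hcomm : Commute b g0 := Subtype.ext (AF_comm ζ b.1 g0.1 b.2 g0.2)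
          have e1 : (b * g0) ^ 2 = b ^ 2 * g0 ^ 2 := hcomm.mul_pow 2
          by_cases hb : b ^ 2 = 1
          · right
            refine ⟨hb, ?_⟩
            show ¬ (b * g0) ^ 2 = 1
            rw [e1, hb, one_mul]
            exact hg0
          · left
            refine ⟨?_, hb⟩
            show (b * g0) ^ 2 = 1
            rw [e1]
            obtain ⟨k1, k2⟩ := key b hb
            obtain ⟨k3, k4⟩ := key g0 hg0
            have e2 : (b ^ 2 : AF (h := h) (p := p) ζ) = g0 ^ 2 := by
              apply Subtype.ext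
              apply EG.ext
              · rw [k1, k3]
              · rw [k2, k4]
            rw [e2]
            apply Subtype.ext
            apply EG.ext
            · show ((g0 ^ 2).1 * (g0 ^ 2).1).w = 0
              rw [EG.mul_w, k3, add_zero]
            · show ((g0 ^ 2).1 * (g0 ^ 2).1).β = 0
              rw [EG.mul_β, k3, k4, Bf_zero_left, add_zero]
              have := CharP.cast_eq_zero k p
              rw [hp2] at this
              have e3 : (1 : k) + 1 = ((2 : ℕ) : k) := by norm_num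
              rw [e3, this]
        have := A2.card_mul_index
        rw [hidx, hAF, pow_succ] at this
        have e6 : p ^ h * p = p ^ h * 2 := congrArg (fun n => p ^ h * n) hp2
        rw [e6] at this
        rw [Nat.eq_of_mul_eq_mul_right (by norm_num) this]
    obtain ⟨K, hK⟩ := Sylow.exists_subgroup_card_pow_prime p hdvd
    refine ⟨(K.map A2.subtype).map (AF (h := h) (p := p) ζ).subtype, ?_, fun hne => absurd hp2 hne, ?_⟩
    · refine ⟨?_, ?_⟩
      · rintro a ⟨b, ⟨c, -, rfl⟩, rfl⟩
        have : (c.1 : AF (h := h) (p := p) ζ) ^ 2 = 1 := c.2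
        have e7 : ∀ x : EG k p h, x ^ p = x ^ 2 := fun x => congrArg (fun n => x ^ n) hp2
        rw [e7]
        exact congrArg Subtype.val this
      · rintro a ⟨b, -, rfl⟩ a' ⟨b', -, rfl⟩
        exact AF_comm ζ b.1 b'.1 b.2 b'.2
    · intro _
      rw [Subgroup.card_map_of_injective (Subgroup.subtype_injective _),
        Subgroup.card_map_of_injective (Subgroup.subtype_injective _), hK, hcard, hp2, ← pow_add]
      congr 1
      omega
  · refine ⟨AF ζ, ⟨?_, ?_⟩, fun _ => ?_, fun h2 => absurd h2 hp2⟩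
    · intro a _
      have hpk := CharP.cast_eq_zero k p
      apply EG.ext
      · rw [pow_w, hpk, zero_mul]; rfl
      · rw [pow_β, hpk, zero_mul, zero_add]
        have h2 : p ∣ p.choose 2 := hp.dvd_choose_self (by omega) (by
          have := hp.two_le
          omega)
        rw [(CharP.cast_eq_zero_iff k p _).2 h2, zero_mul]
        rfl
    · intro a ha b hb
      exact AF_comm ζ a b ha hb
    · rw [hAF, hcard, ← pow_add]
      congr 1
      omega

end Pool.CND
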